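import Pool.Agent.Helper99.WP.GoalsW

/-! # WP (MP_f41a60_pr), packet FOL: the walker follows a path iff the arrows are right -/

open Finset

namespace Pool.Agent.Helper51.WP

open Pool.Agent.Helper99.WP Pool.Agent.Helper99.ERW

theorem wk_step {V : Type} [DecidableEq V] (ξ : V → ℕ → Option V) (x : V) (t : ℕ) (y : V)
    (h : (wk ξ x t).1 = some y) :
    wk ξ x (t + 1) = (ξ y ((wk ξ x t).2 y),
      Function.update (wk ξ x t).2 y ((wk ξ x t).2 y + 1)) := by
  show (match wk ξ x t with
    | (none, v) => (none, v)
    | (some y, v) => (ξ y (v y), Function.update v y (v y + 1))) = _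
  generalize wk ξ x t = w at h ⊢
  obtain ⟨o, v⟩ := w
  simp only at h
  subst h
  rfl

theorem used {V : Type} [DecidableEq V] (ξ : V → ℕ → Option V) (x : V) (π : ℕ → V) (m : ℕ) :
    (∀ k ≤ m, (wk ξ x k).1 = some (π k)) →
    ∀ y, (wk ξ x m).2 y = ((Finset.range m).filter (fun r => π r = y)).card := by
  induction m with
  | zero =>
    intro _ y
    simp [wk]
  | succ m ih =>
    intro h y
    have h1 := ih (fun k hk => h k (by omega))
    rw [wk_step ξ x m (π m) (h m (by omega)), Finset.range_add_one, Finset.filter_insert]
    by_cases hy : π m = y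
    · subst hy
      rw [if_pos rfl, Finset.card_insert_of_notMem (by simp)]
      simp only [Function.update_self]
      rw [h1]
    · rw [if_neg hy]
      simp only
      rw [Function.update_of_ne (fun h => hy h.symm), h1]

theorem FOL : FOL_stmt := by
  intro V _ ξ x π m
  refine ⟨⟨?_, ?_⟩, used ξ x π m⟩
  · intro h
    refine ⟨?_, ?_⟩
    · have h0 := h 0 (Nat.zero_le m)
      have : (wk ξ x 0).1 = some x := rfl
      rw [this] at h0
      exact (Option.some.inj h0).symm
    · intro k hk
      have h1 := h k (by omega)
      have h2 := h (k + 1) (by omega)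
      rw [wk_step ξ x k (π k) h1] at h2
      have h3 := used ξ x π k (fun j hj => h j (by omega)) (π k)
      rw [h3] at h2
      exact h2
  · rintro ⟨h0, h1⟩
    have key : ∀ n ≤ m, ∀ k ≤ n, (wk ξ x k).1 = some (π k) := by
      intro n
      induction n with
      | zero =>
        intro _ k hk
        have : k = 0 := by omega
        subst this
        rw [h0]
        rfl
      | succ n ih =>
        intro hn k hk
        have h2 := ih (by omega)
        rcases Nat.lt_or_ge k (n + 1) with hk1 | hk1
        · exact h2 k (by omega)
        · have hk2 : k = n + 1 := by omega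
          subst hk2
          rw [wk_step ξ x n (π n) (h2 n le_rfl)]
          have h3 := used ξ x π n h2 (π n)
          rw [h3]
          exact h1 n (by omega)
    exact key m le_rfl

end Pool.Agent.Helper51.WP
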